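import Pool.Agent.H74.IL.Phi

/-!
# Project IL: the cochains of the lists are a chain map
-/

set_option autoImplicit false
set_option linter.unusedSectionVars false

open Finset Pointwise

noncomputable section

namespace Pool.Agent.H74.IL

open Pool.Agent.S11 Pool.Agent.H37.TM Pool.Agent.CD Pool.Agent.CE Pool.Agent.CF

variable {P U : Type} [Group P] [DecidableEq U] [MulAction P U] {K B : Set (Finset U)} {n : ℕ}
  {z : Finset U →₀ ZMod 2} {Z : Finset (Finset U →₀ ZMod 2)} {w : P → Finset U →₀ ZMod 2}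

theorem rel_sum {ι : Type} (I : Finset ι) {q : ℕ} {x : ι → Finset U →₀ ZMod 2} (h : ∀ i ∈ I, Rel K B ∅ q (x i)) :
    Rel K B ∅ q (∑ i ∈ I, x i : Finset U →₀ ZMod 2) := by
  intro t ht
  rw [Finsupp.finsetSum_apply] at ht
  obtain ⟨i, hi, h1⟩ := exists_ne_zero_of_sum_ne_zero ht
  exact h i hi t h1

theorem cob_sum {ι : Type} (I : Finset ι) {x y : ι → Finset U →₀ ZMod 2} (h : ∀ i ∈ I, IsCob K B ∅ (x i) (y i)) :
    IsCob K B ∅ (∑ i ∈ I, x i : Finset U →₀ ZMod 2) (∑ i ∈ I, y i : Finset U →₀ ZMod 2) := by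
  intro t h1 h2 h3
  rw [Finsupp.finsetSum_apply]
  simp only [Finsupp.finsetSum_apply]
  rw [sum_comm]
  exact sum_congr rfl fun i hi => h i hi t h1 h2 h3

/-- the class of the cochain of a list with one entry -/
theorem Ph_cls (h : Crs (fun g : P => g) K B) (hD : Dat K B n z Z w) (σ : List P) :
    Cobd K B n (Ph K B n w 1 σ + z) := by
  rw [Ph_one]
  set g := σ.headD 1 with hg
  obtain ⟨b, hb1, hb2⟩ := hD.wcob g
  refine ⟨trn g⁻¹ b, rel_trn h g⁻¹ hb1, ?_⟩
  have h1 := cob_trn h g⁻¹ hb2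
  have h2 : (fun t => (trn g z + w g) (g⁻¹ • t)) = ⇑(trn g⁻¹ (w g) + z) := by
    funext t
    rw [Finsupp.add_apply, Finsupp.add_apply, trn_apply, trn_apply, smul_inv_smul, add_comm]
  rwa [h2] at h1

theorem cobd_add {u v : Finset U →₀ ZMod 2} {q : ℕ} (hu : Cobd K B q u) (hv : Cobd K B q v) : Cobd K B q (u + v) := by
  obtain ⟨a, ha1, ha2⟩ := hu
  obtain ⟨b, hb1, hb2⟩ := hv
  refine ⟨a + b, fun t ht => ?_, fun t h1 h2 h3 => ?_⟩
  · by_cases h0 : a t = 0
    · refine hb1 t fun h1 => ht ?_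
      rw [Finsupp.add_apply, h0, h1, add_zero]
    · exact ha1 t h0
  · rw [Finsupp.add_apply, ← ha2 t h1 h2 h3, ← hb2 t h1 h2 h3, ← sum_add_distrib]
    rfl

theorem add_self_fin (x : Finset U →₀ ZMod 2) : x + x = 0 := by
  refine Finsupp.ext fun t => ?_
  rw [Finsupp.add_apply, Finsupp.zero_apply]
  exact CharTwo.add_self_eq_zero _

theorem eq_zero_of_rel (hne : ∀ s ∈ K, s.Nonempty) {x : Finset U →₀ ZMod 2} (hx : Rel K B ∅ 0 x) : x = 0 := by
  refine Finsupp.ext fun t => ?_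
  rw [Finsupp.zero_apply]
  by_contra h0
  obtain ⟨h1, -, -, h2⟩ := hx t h0
  exact (hne t h1).ne_empty (card_eq_zero.1 h2)

/-- **The chain map.** -/
theorem Ph_main (h : Crs (fun g : P => g) K B) (hD : Dat K B n z Z w) : ∀ (k : ℕ) (σ : List P), σ.length = k + 1 →
    Rel K B ∅ (n + 2 - (k + 1)) (Ph K B n w (k + 1) σ) ∧
      IsCob K B ∅ (Ph K B n w (k + 1) σ) (∑ i ∈ range (k + 1), Ph K B n w k (σ.eraseIdx i) : Finset U →₀ ZMod 2) := by
  intro k
  induction k with
  | zero =>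
    intro σ _
    have h0 : (∑ i ∈ range (0 + 1), Ph K B n w 0 (σ.eraseIdx i) : Finset U →₀ ZMod 2) = 0 :=
      sum_eq_zero fun i _ => Ph_zero w _
    rw [h0]
    rw [Ph_one]
    exact ⟨rel_trn h _ (hD.wcoc _).1, cob_trn h _ (hD.wcoc _).2⟩
  | succ k ih =>
    intro σ hσ
    rw [show k + 1 + 1 = k + 2 from rfl, Ph_succ]
    set g := σ.headD 1 with hg
    set S : Finset U →₀ ZMod 2 := ∑ i ∈ range (k + 2), Ph K B n w (k + 1) (σ.eraseIdx i) with hS
    have hlen : ∀ i ∈ range (k + 2), (σ.eraseIdx i).length = k + 1 := by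
      intro i hi
      rw [mem_range] at hi
      rw [List.length_eraseIdx_of_lt (by omega), hσ]
      rfl
    have hex : ∃ b : Finset U →₀ ZMod 2, Rel K B ∅ (n - k) b ∧ IsCob K B ∅ b S := by
      rcases Nat.eq_zero_or_pos k with hk | hk
      · subst hk
        have h1 : S = (Ph K B n w 1 (σ.eraseIdx 0) + z) + (Ph K B n w 1 (σ.eraseIdx 1) + z) := by
          rw [hS, sum_range_succ, sum_range_one]
          have h2 := add_self_fin z
          calc Ph K B n w (0 + 1) (σ.eraseIdx 0) + Ph K B n w (0 + 1) (σ.eraseIdx 1)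
              = Ph K B n w (0 + 1) (σ.eraseIdx 0) + Ph K B n w (0 + 1) (σ.eraseIdx 1) + (z + z) := by rw [h2, add_zero]
            _ = _ := by abel
        rw [h1]
        exact cobd_add (Ph_cls h hD _) (Ph_cls h hD _)
      · obtain ⟨k', rfl⟩ : ∃ k', k = k' + 1 := ⟨k - 1, by omega⟩
        have hR : Rel K B ∅ (n + 2 - (k' + 1 + 1)) S := rel_sum _ fun i hi => (ih _ (hlen i hi)).1
        have hC : IsCob K B ∅ S 0 := by
          have h1 := cob_sum (K := K) (B := B) (range (k' + 1 + 2)) (x := fun i => Ph K B n w (k' + 1 + 1) (σ.eraseIdx i))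
            (y := fun i => ∑ j ∈ range (k' + 1 + 1), Ph K B n w (k' + 1) ((σ.eraseIdx i).eraseIdx j))
            fun i hi => (ih _ (hlen i hi)).2
          have h2 := sum_erase_erase add_self_fin (Ph K B n w (k' + 1)) σ
          rw [hσ] at h2
          have h3 : k' + 1 + 1 + 1 - 1 = k' + 1 + 1 := rfl
          rw [h3] at h2
          rw [show (∑ i ∈ range (k' + 1 + 2), ∑ j ∈ range (k' + 1 + 1),
            Ph K B n w (k' + 1) ((σ.eraseIdx i).eraseIdx j) : Finset U →₀ ZMod 2) = 0 from h2] at h1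
          exact h1
        by_cases hkn : k' < n
        · exact hD.low (n - (k' + 1)) (by omega) S ⟨by
            have h1 : n + 2 - (k' + 1 + 1) = n - (k' + 1) + 1 := by omega
            rwa [h1] at hR, hC⟩
        · have h1 : n + 2 - (k' + 1 + 1) = 0 := by omega
          rw [h1] at hR
          rw [eq_zero_of_rel h.ne hR]
          exact ⟨0, fun t ht => absurd rfl ht, fun t _ _ _ => by simp⟩
    obtain ⟨b, hb1, hb2⟩ := hex
    obtain ⟨h1, h2⟩ := prim_spec (q := n - k) (u := trn g S) ⟨trn g b, rel_trn h g hb1, cob_trn h g hb2⟩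
    have h3 := rel_trn h g⁻¹ h1
    have h4 := cob_trn h g⁻¹ h2
    have h5 : (fun t => trn g S (g⁻¹ • t)) = ⇑S := by
      funext t
      rw [trn_apply, smul_inv_smul]
    rw [h5] at h4
    refine ⟨?_, h4⟩
    have h6 : n + 2 - (k + 2) = n - k := by omega
    rwa [h6]

end Pool.Agent.H74.IL
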