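import Pool.Agent.S11.SqC

/-!
# Project IL: cup products of functions on finite sets with values in the field of two elements
-/

set_option autoImplicit false
set_option linter.unusedSectionVars false

open Finset Pointwise
open scoped TensorProduct

noncomputable section

namespace Pool.Agent.H74.IL

open Pool.Agent.S11

variable {U : Type} [DecidableEq U] {r : U → U → Prop}

/-- the cup product of order `m - 1` -/
def cupM (r : U → U → Prop) (m : ℕ) (x y : Finset U → ZMod 2) (s : Finset U) : ZMod 2 :=
  ∑ N ∈ s.powersetCard m, x (f1 r N s) * y (f2 r N s)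

theorem mul_cupL (r : U → U → Prop) (m : ℕ) (x y : Finset U → ZMod 2) (s : Finset U) :
    LinearMap.mul' (ZMod 2) (ZMod 2) (cupL r m x y s) = cupM r m x y s := by
  unfold cupL cupM
  rw [map_sum]
  exact sum_congr rfl fun N _ => LinearMap.mul'_apply

theorem mul_sw (x : ZMod 2 ⊗[ZMod 2] ZMod 2) :
    LinearMap.mul' (ZMod 2) (ZMod 2) (sw x) = LinearMap.mul' (ZMod 2) (ZMod 2) x := by
  induction x using TensorProduct.induction_on with
  | zero => rw [map_zero]
  | tmul u v => rw [sw_tmul, LinearMap.mul'_apply, LinearMap.mul'_apply, mul_comm]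
  | add a b ha hb => rw [map_add, map_add, map_add, ha, hb]

/-- **The coboundary of the cup products.** -/
theorem cob_cupM (m : ℕ) (x y : Finset U → ZMod 2) {s : Finset U} (hs : TotOn r s) :
    ∑ v ∈ s, cupM r (m + 1) x y (s.erase v) =
      cupM r (m + 1) (cobW x) y s + cupM r (m + 1) x (cobW y) s + (cupM r m x y s + cupM r m y x s) := by
  have h := congrArg (LinearMap.mul' (ZMod 2) (ZMod 2)) (cob_cupL m x y hs)
  rw [map_add, map_add, map_add, mul_sw, mul_cupL, mul_cupL, mul_cupL, mul_cupL] at h
  rw [← h]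
  unfold cobW
  rw [map_sum]
  exact sum_congr rfl fun v _ => (mul_cupL _ _ _ _ _).symm

theorem cupM_zero (r : U → U → Prop) (x y : Finset U → ZMod 2) (s : Finset U) (h : y ∅ = 0) : cupM r 0 x y s = 0 := by
  rw [← mul_cupL, cupL_zero r x y s h, map_zero]

theorem cupM_self (r : U → U → Prop) (x y : Finset U → ZMod 2) (s : Finset U) : cupM r s.card x y s = x s * y s := by
  rw [← mul_cupL, cupL_self, LinearMap.mul'_apply]

theorem cupM_congr {m : ℕ} {x y x' y' : Finset U → ZMod 2} {s : Finset U} (hx : ∀ t ⊆ s, x t = x' t)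
    (hy : ∀ t ⊆ s, y t = y' t) : cupM r m x y s = cupM r m x' y' s := by
  unfold cupM
  exact sum_congr rfl fun N _ => by rw [hx _ (f1_subset r N s), hy _ (f2_subset r N s)]

theorem cupM_sum_left {ι : Type} (I : Finset ι) (m : ℕ) (x : ι → Finset U → ZMod 2) (y : Finset U → ZMod 2) (s : Finset U) :
    cupM r m (fun t => ∑ i ∈ I, x i t) y s = ∑ i ∈ I, cupM r m (x i) y s := by
  unfold cupM
  rw [sum_comm]
  exact sum_congr rfl fun N _ => by rw [sum_mul]

theorem cupM_sum_right {ι : Type} (I : Finset ι) (m : ℕ) (x : Finset U → ZMod 2) (y : ι → Finset U → ZMod 2) (s : Finset U) :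
    cupM r m x (fun t => ∑ i ∈ I, y i t) s = ∑ i ∈ I, cupM r m x (y i) s := by
  unfold cupM
  rw [sum_comm]
  exact sum_congr rfl fun N _ => by rw [mul_sum]

/-- if the product is not zero, both factors are not zero on some faces -/
theorem cupM_ne {m : ℕ} {x y : Finset U → ZMod 2} {s : Finset U} (h : cupM r m x y s ≠ 0) :
    ∃ t ⊆ s, ∃ t' ⊆ s, x t ≠ 0 ∧ y t' ≠ 0 ∧ m ≤ t.card := by
  obtain ⟨N, hN, h1⟩ := exists_ne_zero_of_sum_ne_zero h
  obtain ⟨h2, h3⟩ := mem_powersetCard.1 hN
  refine ⟨_, f1_subset r N s, _, f2_subset r N s, left_ne_zero_of_mul h1, right_ne_zero_of_mul h1, ?_⟩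
  rw [← h3]
  refine card_le_card fun v hv => ?_
  unfold f1
  exact mem_filter.2 ⟨h2 hv, Or.inl hv⟩

theorem exists_tot (U : Type) : ∃ r : U → U → Prop, ∀ s : Finset U, TotOn r s := by
  refine ⟨WellOrderingRel, fun s => ⟨fun u _ => irrefl_of WellOrderingRel u, fun u _ v _ w _ h1 h2 => _root_.trans h1 h2,
    fun u _ v _ huv => ?_⟩⟩
  rcases trichotomous_of WellOrderingRel u v with h | h | h
  · exact Or.inl h
  · exact absurd h huv
  · exact Or.inr h

/-- the sum over the pairs of entries which are deleted is zero -/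
theorem sum_erase_erase {P M : Type} [AddCommGroup M] (h2 : ∀ x : M, x + x = 0) (F : List P → M) (σ : List P) :
    ∑ i ∈ range σ.length, ∑ j ∈ range (σ.length - 1), F ((σ.eraseIdx i).eraseIdx j) = 0 := by
  classical
  have ee : ∀ (l : List P) (i j : ℕ), i ≤ j → (l.eraseIdx i).eraseIdx j = (l.eraseIdx (j + 1)).eraseIdx i := by
    intro l
    induction l with
    | nil =>
      intro i j _
      simp
    | cons a l ih =>
      intro i j hij
      cases i with
      | zero => rfl
      | succ i =>
        cases j with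
        | zero => exact absurd hij (by omega)
        | succ j =>
          simp only [List.eraseIdx_cons_succ]
          rw [ih i j (by omega)]
  rw [Finset.sum_sigma']
  refine Finset.sum_involution (fun p _ => if p.1 ≤ p.2 then ⟨p.2 + 1, p.1⟩ else ⟨p.2, p.1 - 1⟩) ?_ ?_ ?_ ?_
  · rintro ⟨i, j⟩ h
    by_cases hij : i ≤ j
    · simp only [if_pos hij]
      rw [ee _ _ _ hij]
      exact h2 _
    · simp only [if_neg hij]
      have h3 := ee σ j (i - 1) (by omega)
      rw [Nat.sub_add_cancel (by omega : 1 ≤ i)] at h3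
      rw [h3]
      exact h2 _
  · rintro ⟨i, j⟩ h _ he
    by_cases hij : i ≤ j
    · simp only [if_pos hij] at he
      have h3 : j + 1 = i := congrArg Sigma.fst he
      omega
    · simp only [if_neg hij] at he
      have h3 : j = i := congrArg Sigma.fst he
      omega
  · rintro ⟨i, j⟩ h
    rw [Finset.mem_sigma, Finset.mem_range, Finset.mem_range] at h
    have h3 : i < σ.length := h.1
    have h4 : j < σ.length - 1 := h.2
    by_cases hij : i ≤ j
    · simp only [if_pos hij]
      rw [Finset.mem_sigma, Finset.mem_range, Finset.mem_range]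
      exact ⟨(by omega : j + 1 < σ.length), (by omega : i < σ.length - 1)⟩
    · simp only [if_neg hij]
      rw [Finset.mem_sigma, Finset.mem_range, Finset.mem_range]
      exact ⟨(by omega : j < σ.length), (by omega : i - 1 < σ.length - 1)⟩
  · rintro ⟨i, j⟩ h
    by_cases hij : i ≤ j
    · simp only [if_pos hij]
      rw [if_neg (by omega : ¬ j + 1 ≤ i)]
      rfl
    · simp only [if_neg hij]
      rw [if_pos (by omega : j ≤ i - 1), Nat.sub_add_cancel (by omega : 1 ≤ i)]

end Pool.Agent.H74.IL
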